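import Pool.Agent.H496Z.Var.Main

open Polynomial Filter Topology Pool.Agent.H496Z.Var

/-- There are constants `C n ≥ 1` tending to `1`, independent of `p`, such that
`h(F, F') ≤ C n * σ_p(F)` for every `p ≥ 1` and every complex polynomial `F` of degree `n ≥ 2`. -/
theorem Pool.Agent.Results.MP_0234e1_an.AAsymptotic.result :
    ∃ C : ℕ → ℝ, (∀ n, 1 ≤ C n) ∧ Tendsto C atTop (𝓝 1) ∧
      ∀ p : ℝ, 1 ≤ p → ∀ F : ℂ[X], 2 ≤ F.natDegree → hdist F ≤ C F.natDegree * sigma p F :=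
  ⟨Cn, one_le_Cn, Cn_tendsto, bound⟩
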